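import Mathlib

namespace Pool.Agent.Results.MP_f5f603_al.Counter

open Equiv

/-- `(R, op)` is a quandle (right translations `x ↦ op x y`). -/
def IsQuandle {R : Type} (op : R → R → R) : Prop :=
  (∀ x, op x x = x) ∧ (∀ y, Function.Bijective (fun x => op x y)) ∧
    ∀ x y z, op (op x y) z = op (op x z) (op y z)

/-- The group generated by the right translations acts transitively. -/
def Connected {R : Type} (op : R → R → R) : Prop :=
  ∀ a b : R, ∃ g ∈ Subgroup.closure {σ : Perm R | ∃ y, ∀ x, σ x = op x y}, g a = b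

/-- Every right translation squares to the identity. -/
def Involutory {R : Type} (op : R → R → R) : Prop := ∀ x y, op (op x y) y = x

/-- Good involution: `ρ ∘ ρ = id`, `ρ (x * y) = ρ x * y`, and `x * ρ y` is the element that
`s_y` sends to `x`, that is `x * ρ y = s_y⁻¹ x`. -/
def Good {R : Type} (op : R → R → R) (ρ : R → R) : Prop :=
  (∀ x, ρ (ρ x) = x) ∧ (∀ x y, ρ (op x y) = op (ρ x) y) ∧ ∀ x y, op (op x (ρ y)) y = x

def c0 : Perm (Fin 6) := swap 0 3 * swap 0 2 * swap 0 1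

@[ext] structure Q where
  c : Perm (Fin 6)
  a : Fin 6
  b : Fin 6
  hc : ∃ σ, c = σ * c0 * σ⁻¹
  ha : c a = a
  hb : c b = b
  hab : a ≠ b

instance : SMul (Perm (Fin 6)) Q where
  smul σ p := ⟨σ * p.c * σ⁻¹, σ p.a, σ p.b, by
    obtain ⟨τ, h⟩ := p.hc
    exact ⟨σ * τ, by rw [h]; group⟩, by simp [p.ha], by simp [p.hb], σ.injective.ne p.hab⟩

@[simp] lemma smul_c (σ : Perm (Fin 6)) (p : Q) : (σ • p).c = σ * p.c * σ⁻¹ := rfl
@[simp] lemma smul_a (σ : Perm (Fin 6)) (p : Q) : (σ • p).a = σ p.a := rfl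
@[simp] lemma smul_b (σ : Perm (Fin 6)) (p : Q) : (σ • p).b = σ p.b := rfl

instance : MulAction (Perm (Fin 6)) Q where
  one_smul p := by ext1 <;> simp
  mul_smul σ τ p := by ext1 <;> simp [mul_assoc]

def op (p q : Q) : Q := q.c • p

lemma inv_conj (p : Q) : ∃ σ, p.c⁻¹ = σ * c0 * σ⁻¹ := by
  obtain ⟨τ, h⟩ := p.hc
  have : c0⁻¹ = swap 0 2 * c0 * (swap 0 2)⁻¹ := by decide
  refine ⟨τ * swap 0 2, ?_⟩
  rw [h, mul_inv_rev, mul_inv_rev, this]; group

def ρ1 (p : Q) : Q := ⟨p.c⁻¹, p.a, p.b, inv_conj p, by rw [Perm.inv_eq_iff_eq, p.ha],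
  by rw [Perm.inv_eq_iff_eq, p.hb], p.hab⟩
def ρ2 (p : Q) : Q := ⟨p.c⁻¹, p.b, p.a, inv_conj p, by rw [Perm.inv_eq_iff_eq, p.hb],
  by rw [Perm.inv_eq_iff_eq, p.ha], p.hab.symm⟩

def p0 : Q := ⟨c0, 4, 5, ⟨1, by simp⟩, by decide, by decide, by decide⟩

lemma trans (p : Q) : ∃ σ : Perm (Fin 6), σ • p0 = p := by
  obtain ⟨τ, h⟩ := p.hc
  have ha : c0 (τ⁻¹ p.a) = τ⁻¹ p.a := by
    have := p.ha; rw [h] at this
    rw [Perm.eq_inv_iff_eq]
    simpa using this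
  have hb : c0 (τ⁻¹ p.b) = τ⁻¹ p.b := by
    have := p.hb; rw [h] at this
    rw [Perm.eq_inv_iff_eq]
    simpa using this
  have hne : τ⁻¹ p.a ≠ τ⁻¹ p.b := τ⁻¹.injective.ne p.hab
  have key : ∀ u v : Fin 6, c0 u = u → c0 v = v → u ≠ v → (u = 4 ∧ v = 5) ∨ (u = 5 ∧ v = 4) := by
    decide
  rcases key _ _ ha hb hne with ⟨h1, h2⟩ | ⟨h1, h2⟩
  · refine ⟨τ, ?_⟩
    ext1
    · exact h.symm
    · show τ 4 = _; rw [← h1]; simp
    · show τ 5 = _; rw [← h2]; simp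
  · refine ⟨τ * swap 4 5, ?_⟩
    have e : swap 4 5 * c0 * (swap 4 5)⁻¹ = c0 := by decide
    ext1
    · show τ * swap 4 5 * c0 * (τ * swap 4 5)⁻¹ = _
      rw [h, mul_inv_rev]
      conv_rhs => rw [← e]
      simp only [mul_assoc]
    · show τ (swap 4 5 4) = _; rw [swap_apply_left, ← h1]; simp
    · show τ (swap 4 5 5) = _; rw [swap_apply_right, ← h2]; simp

lemma all (σ : Perm (Fin 6)) : MulAction.toPermHom (Perm (Fin 6)) Q σ ∈
    Subgroup.closure {σ : Perm Q | ∃ y, ∀ x, σ x = op x y} := by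
  set K := (Subgroup.closure {σ : Perm Q | ∃ y, ∀ x, σ x = op x y}).comap
    (MulAction.toPermHom (Perm (Fin 6)) Q) with hK
  have h1 : ∀ τ : Perm (Fin 6), τ * c0 * τ⁻¹ ∈ K := fun τ =>
    Subgroup.subset_closure ⟨τ • p0, fun x => rfl⟩
  have h2 : Subgroup.normalClosure {c0} ≤ K := by
    rw [Subgroup.normalClosure, Subgroup.closure_le]
    intro g hg
    obtain ⟨a, ha, hc⟩ := Group.mem_conjugatesOfSet_iff.1 hg
    obtain ⟨τ, rfl⟩ := isConj_iff.1 hc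
    rw [Set.mem_singleton_iff.1 ha]
    exact h1 τ
  have h3 : c0 ∈ Subgroup.normalClosure {c0} := Subgroup.subset_normalClosure rfl
  have h4 : swap (0 : Fin 6) 1 ∈ Subgroup.normalClosure {c0} := by
    have e : swap (0 : Fin 6) 1 =
      c0 * c0 * ((swap 1 2 * swap 1 3) * c0 * (swap 1 2 * swap 1 3)⁻¹) := by decide
    rw [e]
    exact mul_mem (mul_mem h3 h3) (Subgroup.Normal.conj_mem inferInstance _ h3 _)
  have h5 : (⊤ : Subgroup (Perm (Fin 6))) ≤ Subgroup.normalClosure {c0} := by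
    rw [← Perm.closure_isSwap, Subgroup.closure_le]
    rintro g ⟨x, y, hxy, rfl⟩
    obtain ⟨τ, hτ⟩ := isConj_iff.1 (Perm.isConj_swap (show (0 : Fin 6) ≠ 1 by decide) hxy)
    rw [← hτ]
    exact Subgroup.Normal.conj_mem inferInstance _ h4 _
  exact h2 (h5 (Subgroup.mem_top σ))

theorem result : ∃ (R : Type) (op : R → R → R), Finite R ∧ IsQuandle op ∧ Connected op ∧
    ¬ Involutory op ∧ ∃ ρ ρ' : R → R, Good op ρ ∧ Good op ρ' ∧ ρ ≠ ρ' := by
  refine ⟨Q, op, ?_, ⟨?_, ?_, ?_⟩, ?_, ?_, ρ1, ρ2, ⟨?_, ?_, ?_⟩, ⟨?_, ?_, ?_⟩, ?_⟩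
  · exact Finite.of_injective (fun p : Q => (p.c, p.a, p.b)) (fun p q h => by
      simp only [Prod.mk.injEq] at h
      exact Q.ext h.1 h.2.1 h.2.2)
  · intro p; ext1 <;> simp [op, p.ha, p.hb]
  · intro y; exact MulAction.bijective y.c
  · intro x y z; simp [op, ← mul_smul]
  · intro a b
    obtain ⟨σ, rfl⟩ := trans a
    obtain ⟨τ, rfl⟩ := trans b
    exact ⟨_, all (τ * σ⁻¹), by simp [← mul_smul]⟩
  · intro h
    have := congrArg Q.a (h (swap (0 : Fin 6) 4 • p0) p0)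
    revert this
    simp only [op, smul_a, p0]
    decide
  · intro p; ext1 <;> simp [ρ1]
  · intro p q; ext1 <;> simp [ρ1, op, mul_assoc]
  · intro p q; simp [ρ1, op]
  · intro p; ext1 <;> simp [ρ2]
  · intro p q; ext1 <;> simp [ρ2, op, mul_assoc]
  · intro p q; simp [ρ2, op]
  · intro h
    exact p0.hab (congrArg Q.a (congrFun h p0))

end Pool.Agent.Results.MP_f5f603_al.Counter
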